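import Mathlib
import Pool.Agent.Q201.MultRec

/-!
# Multiple recurrence of `I + T` for weighted backward shifts
-/

set_option autoImplicit false

open Filter Topology

namespace Pool.Agent.Results.MP_a8995d_an.MultiplyRecurrent

universe u

/-- for every non-empty open `U` and every `N` there is `k₀` such that for all `k ≥ k₀` the set
`U ∩ S^{-k}(U) ∩ ... ∩ S^{-Nk}(U)` is non-empty -/
def StronglyMultiplyRecurrent {𝕂 : Type} {E : Type*} [RCLike 𝕂] [NormedAddCommGroup E] [NormedSpace 𝕂 E]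
    (S : E →L[𝕂] E) : Prop :=
  ∀ U : Set E, IsOpen U → U.Nonempty → ∀ N : ℕ, ∃ k₀ : ℕ, ∀ k, k₀ ≤ k →
    (⋂ s ∈ Finset.range (N + 1), (⇑(S ^ (s * k))) ⁻¹' U).Nonempty

/-- complex `ℓ²` -/
abbrev H : Type := lp (fun _ : ℕ => ℂ) 2

/-- `(T x)_n = w_{n+1} x_{n+1}` -/
def IsWeightedShift (w : ℕ → ℝ) (T : H →L[ℂ] H) : Prop :=
  ∀ (x : H) (n : ℕ), T x n = (w (n + 1) : ℂ) * x (n + 1)

/-- `T f₀ = 0`, `T f_{l+1} = f_l`, and the span of the `f_l` is dense -/
def HasDenseChain {𝕂 : Type} {E : Type*} [RCLike 𝕂] [NormedAddCommGroup E] [NormedSpace 𝕂 E]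
    (T : E →L[𝕂] E) : Prop :=
  ∃ f : ℕ → E, T (f 0) = 0 ∧ (∀ l, T (f (l + 1)) = f l) ∧
    Dense (Submodule.span 𝕂 (Set.range f) : Set E)

theorem key {𝕂 : Type} {E : Type*} [RCLike 𝕂] [NormedAddCommGroup E] [NormedSpace 𝕂 E]
    (T : E →L[𝕂] E) (h : HasDenseChain T) : StronglyMultiplyRecurrent (1 + T) := by
  obtain ⟨f, h0, h1, hd⟩ := h
  intro U hU hUn N
  obtain ⟨k₀, hk₀⟩ := Pool.Agent.Q201.MultRec.mult_rec T f h0 h1 hd U hU hUn N
  refine ⟨k₀, fun k hk => ?_⟩
  obtain ⟨x, hx⟩ := hk₀ k hk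
  refine ⟨x, ?_⟩
  simp only [Set.mem_iInter, Set.mem_preimage, Finset.mem_range]
  intro s hs
  rw [mul_comm]
  exact hx s (by omega)

/-- (1) For every unilateral weighted shift `T` on complex `ℓ²`, the operator `I + T` is topologically
multiply recurrent, in the strong form that all large `k` work.
(2) The same for every bounded operator `T` on a real or complex normed space which has a chain
`T f₀ = 0`, `T f_{l+1} = f_l` with dense linear span. -/
theorem result :
    (∀ w : ℕ → ℝ, (∀ n, 1 ≤ n → 0 < w n) → ∀ T : H →L[ℂ] H, IsWeightedShift w T →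
      StronglyMultiplyRecurrent (1 + T)) ∧
    (∀ (𝕂 : Type) [RCLike 𝕂] (E : Type u) [NormedAddCommGroup E] [NormedSpace 𝕂 E] (T : E →L[𝕂] E),
      HasDenseChain T → StronglyMultiplyRecurrent (1 + T)) := by
  refine ⟨?_, fun 𝕂 _ E _ _ T h => key T h⟩
  intro w hw T hT
  -- the chain
  set e : ℕ → lp (fun _ : ℕ => ℂ) 2 := fun n => lp.single 2 n (1 : ℂ) with he
  have he_apply : ∀ n m : ℕ, e n m = if m = n then 1 else 0 := by
    intro n m
    rw [he]
    simp only
    rw [lp.single_apply, Pi.single_apply]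
  have hTe0 : T (e 0) = 0 := by
    ext n
    rw [hT, he_apply, if_neg (by omega), mul_zero]
    rfl
  have hTes : ∀ l, T (e (l + 1)) = (w (l + 1) : ℂ) • e l := by
    intro l
    ext n
    rw [hT, he_apply, lp.coeFn_smul, Pi.smul_apply, he_apply, smul_eq_mul]
    by_cases h : n = l
    · subst h; simp
    · rw [if_neg (by omega), if_neg h, mul_zero, mul_zero]
  set W : ℕ → ℂ := fun l => ∏ j ∈ Finset.range l, (w (j + 1) : ℂ) with hW
  have hW0 : ∀ l, W l ≠ 0 := by
    intro l
    rw [hW]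
    simp only
    rw [Finset.prod_ne_zero_iff]
    intro j _
    exact Complex.ofReal_ne_zero.2 (hw (j + 1) (by omega)).ne'
  set f : ℕ → lp (fun _ : ℕ => ℂ) 2 := fun l => (W l)⁻¹ • e l with hf
  refine key T ⟨f, ?_, ?_, ?_⟩
  · rw [hf]
    simp only
    rw [map_smul, hTe0, smul_zero]
  · intro l
    rw [hf]
    simp only
    rw [map_smul, hTes, smul_smul]
    congr 1
    have h1 : W (l + 1) = W l * (w (l + 1) : ℂ) := by
      rw [hW]
      simp only
      rw [Finset.prod_range_succ]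
    have h2 : (w (l + 1) : ℂ) ≠ 0 := Complex.ofReal_ne_zero.2 (hw (l + 1) (by omega)).ne'
    rw [h1, mul_inv, mul_assoc, inv_mul_cancel₀ h2, mul_one]
  · intro x
    have h1 : HasSum (fun i => lp.single 2 i (x i : ℂ)) x := lp.hasSum_single (by norm_num) x
    refine mem_closure_of_tendsto h1 (Filter.Eventually.of_forall fun s => ?_)
    refine Submodule.sum_mem _ fun i _ => ?_
    have h2 : lp.single 2 i (x i : ℂ) = (x i * W i) • f i := by
      rw [hf]
      simp only
      rw [smul_smul, mul_assoc, mul_inv_cancel₀ (hW0 i), mul_one, he]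
      simp only
      rw [← lp.single_smul, smul_eq_mul, mul_one]
    rw [h2]
    exact Submodule.smul_mem _ _ (Submodule.subset_span ⟨i, rfl⟩)

end Pool.Agent.Results.MP_a8995d_an.MultiplyRecurrent
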